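import Pool.Agent.K1H77.PA.Stm

/-! # The linear hull of a set -/

set_option autoImplicit false

open Module

namespace Pool.Agent.K1H89.PA

open Pool.Agent.K1H77.PA

lemma hull_aux {L V : Type} [Field L] [AddCommGroup V] [Module L V] [FiniteDimensional L V]
    (d : ℕ) : ∀ (X : Set V), finrank L (Submodule.span L X) = d →
    ∃ 𝒲 : Set (Submodule L V), 𝒲.Finite ∧ (∀ x ∈ X, ∃ W ∈ 𝒲, x ∈ W) ∧
      ∀ W ∈ 𝒲, ∀ 𝒮 : Set (Submodule L V), 𝒮.Finite → (∀ Z ∈ 𝒮, ¬ W ≤ Z) →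
        ∃ x ∈ X, x ∈ W ∧ ∀ Z ∈ 𝒮, x ∉ Z := by
  induction d using Nat.strong_induction_on with
  | _ d ih =>
    intro X hX
    by_cases h : ∀ 𝒮 : Set (Submodule L V), 𝒮.Finite → (∀ Z ∈ 𝒮, ¬ Submodule.span L X ≤ Z) →
        ∃ x ∈ X, ∀ Z ∈ 𝒮, x ∉ Z
    · refine ⟨{Submodule.span L X}, Set.finite_singleton _, ?_, ?_⟩
      · intro x hx
        exact ⟨_, rfl, Submodule.subset_span hx⟩
      · rintro W rfl 𝒮 h1 h2
        obtain ⟨x, h3, h4⟩ := h 𝒮 h1 h2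
        exact ⟨x, h3, Submodule.subset_span h3, h4⟩
    · push Not at h
      obtain ⟨𝒮, h1, h2, h3⟩ := h
      have h4 : ∀ Z : Submodule L V, Z ∈ 𝒮 → ∃ 𝒲 : Set (Submodule L V), 𝒲.Finite ∧
          (∀ x ∈ X ∩ Z, ∃ W ∈ 𝒲, x ∈ W) ∧
          ∀ W ∈ 𝒲, ∀ 𝒮 : Set (Submodule L V), 𝒮.Finite → (∀ Z ∈ 𝒮, ¬ W ≤ Z) →
            ∃ x ∈ X ∩ Z, x ∈ W ∧ ∀ Z ∈ 𝒮, x ∉ Z := by
        intro Z hZ
        refine ih (finrank L (Submodule.span L (X ∩ Z))) ?_ _ rfl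
        rw [← hX]
        apply Submodule.finrank_lt_finrank_of_lt
        apply lt_of_le_of_ne (Submodule.span_mono Set.inter_subset_left)
        intro h5
        apply h2 Z hZ
        rw [← h5, Submodule.span_le]
        exact Set.inter_subset_right
      choose! 𝒲 e1 e2 e3 using h4
      refine ⟨⋃ Z ∈ 𝒮, 𝒲 Z, h1.biUnion fun Z hZ => e1 Z hZ, ?_, ?_⟩
      · intro x hx
        obtain ⟨Z, hZ, hxZ⟩ := h3 x hx
        obtain ⟨W, hW, hxW⟩ := e2 Z hZ x ⟨hx, hxZ⟩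
        exact ⟨W, Set.mem_biUnion hZ hW, hxW⟩
      · intro W hW 𝒮' f1 f2
        rw [Set.mem_iUnion₂] at hW
        obtain ⟨Z, hZ, hW⟩ := hW
        obtain ⟨x, g1, g2, g3⟩ := e3 Z hZ W hW 𝒮' f1 f2
        exact ⟨x, g1.1, g2, g3⟩

theorem t_HULL : S_HULL := by
  intro L V _ _ _ _ X
  obtain ⟨𝒲, h1, h2, h3⟩ := hull_aux (L := L) _ X rfl
  have : Fintype 𝒲 := h1.fintype
  refine ⟨Fintype.card 𝒲, fun j => ((Fintype.equivFin 𝒲).symm j).1, ?_, ?_⟩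
  · intro x hx
    obtain ⟨W, hW, hxW⟩ := h2 x hx
    refine ⟨Fintype.equivFin 𝒲 ⟨W, hW⟩, ?_⟩
    simp only [Equiv.symm_apply_apply]
    exact hxW
  · intro j 𝒮 f1 f2
    exact h3 _ ((Fintype.equivFin 𝒲).symm j).2 𝒮 f1 f2

end Pool.Agent.K1H89.PA
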