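import Pool.Agent.K1H77.PA.Stm

/-! # Applications of the unit equation in characteristic zero -/

set_option autoImplicit false

open Module

namespace Pool.Agent.K1H89.PA

open Pool.Agent.K1H77.PA

lemma ut2_fintype {L : Type} [Field L] (hU : UT2 L) (G : Subgroup Lˣ) (hG : G.FG)
    (ι : Type) [Fintype ι] (r : ℕ) (hr : r < Fintype.card ι) : ∃ R : Set L, R.Finite ∧
    ∀ (u : ι → Lˣ) (w : Fin r → L), (∀ i, u i ∈ G) → (∀ k, In0 G (w k)) →
      ∑ i, (u i : L) = ∑ k, w k → ∃ i j, i ≠ j ∧ (u i : L) / u j ∈ R := by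
  obtain ⟨R, hR, h⟩ := hU G hG (Fintype.card ι) r hr
  refine ⟨R, hR, ?_⟩
  intro u w hu hw hsum
  obtain ⟨e⟩ : Nonempty (ι ≃ Fin (Fintype.card ι)) := ⟨Fintype.equivFin ι⟩
  obtain ⟨i, j, hij, h1⟩ := h (fun k => u (e.symm k)) w (fun k => hu _) hw (by
    rw [← hsum]
    exact Equiv.sum_comp e.symm (fun i => (u i : L)))
  exact ⟨e.symm i, e.symm j, fun h => hij (e.symm.injective h), h1⟩

lemma fg_sup {L : Type} [Field L] {G : Subgroup Lˣ} (hG : G.FG) {ι : Type} [Finite ι]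
    (c : ι → Lˣ) : (G ⊔ Subgroup.closure (Set.range c)).FG :=
  hG.sup (Subgroup.fg_iff _ |>.2 ⟨_, rfl, Set.finite_range c⟩)

lemma In0.mono {L : Type} [Field L] {G G' : Subgroup Lˣ} (h : G ≤ G') {x : L} (hx : In0 G x) :
    In0 G' x := by
  rcases hx with h0 | ⟨u, hu, h1⟩
  · exact Or.inl h0
  · exact Or.inr ⟨u, h hu, h1⟩

theorem t_LEMA0 (hN : S_N) (hU : S_UT2) : S_LEMA0 := by
  classical
  intro L _ _ A _ G hG ι _ χ c r hχ hNT hc hsum
  by_contra hcon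
  push Not at hcon
  obtain ⟨cu, hcu⟩ : ∃ cu : ι → Lˣ, ∀ i, (cu i : L) = c i := ⟨fun i => Units.mk0 (c i) (hc i),
    fun i => rfl⟩
  obtain ⟨G', hG'⟩ : ∃ G', G' = G ⊔ Subgroup.closure (Set.range cu) := ⟨_, rfl⟩
  have hG'fg : G'.FG := by rw [hG']; exact fg_sup hG cu
  have hGG' : G ≤ G' := by rw [hG']; exact le_sup_left
  have hcG' : ∀ i, cu i ∈ G' := fun i => by
    rw [hG']
    exact (le_sup_right : _ ≤ G ⊔ _) (Subgroup.subset_closure ⟨i, rfl⟩)
  obtain ⟨R, hR, h⟩ := ut2_fintype (hU L) G' hG'fg ι r hcon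
  have hRf : Finite R := hR
  obtain ⟨a, ha⟩ := hN L A ({p : ι × ι // p.1 ≠ p.2} × R) (fun _ => Fin 2)
    (fun s => ![χ s.1.1.1, χ s.1.1.2]) (fun s => ![c s.1.1.1, -(s.2.1 * c s.1.1.2)]) (by
      rintro ⟨⟨⟨i, j⟩, hij⟩, ρ⟩ k l hkl
      fin_cases k <;> fin_cases l
      · exact absurd rfl hkl
      · exact hNT i j hij
      · exact hNT j i (Ne.symm hij)
      · exact absurd rfl hkl) (by
      rintro ⟨⟨⟨i, j⟩, hij⟩, ρ⟩
      exact ⟨0, hc i⟩)
  obtain ⟨w, hw, hws⟩ := hsum a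
  obtain ⟨i, j, hij, h1⟩ := h (fun i => cu i * χ i a) w (fun i => G'.mul_mem (hcG' i) (hGG' (hχ i a)))
    (fun k => In0.mono hGG' (hw k)) (by
      rw [← hws]
      apply Finset.sum_congr rfl
      intro i _
      rw [Units.val_mul, hcu])
  apply ha ⟨⟨⟨i, j⟩, hij⟩, ⟨_, h1⟩⟩
  simp only [Fin.sum_univ_two, Matrix.cons_val_zero, Matrix.cons_val_one, Units.val_mul, hcu]
  have hj : (χ j a : L) ≠ 0 := Units.ne_zero _
  have hcj := hc j
  field_simp
  ring

theorem t_LEMB0 (hU : S_UT2) : S_LEMB0 := by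
  classical
  intro L _ _ W _ _ _ H hH X Ψ hX hΨ
  obtain ⟨b, hbΨ, hspan, hli⟩ := exists_linearIndependent L Ψ
  have hbfin : b.Finite := hli.setFinite
  refine ⟨insert 0 b, hbfin.insert 0, ?_⟩
  intro ψ hψ
  have hψs : ψ ∈ Submodule.span L b := by
    rw [hspan]
    exact Submodule.subset_span hψ
  obtain ⟨f, hfs, hf⟩ := Submodule.mem_span_set.1 hψs
  by_cases h0 : f.support = ∅
  · refine ⟨0, Set.mem_insert _ _, 0, ?_⟩
    rw [← hf, Finsupp.sum, h0, Finset.sum_empty, smul_zero]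
  by_cases h1 : f.support.card = 1
  · obtain ⟨p, hp⟩ := Finset.card_eq_one.1 h1
    refine ⟨p, Set.mem_insert_of_mem _ (hfs (by rw [hp]; simp)), f p, ?_⟩
    rw [← hf, Finsupp.sum, hp, Finset.sum_singleton]
  exfalso
  have h2 : 1 < Fintype.card f.support := by
    rw [Fintype.card_coe]
    have := Finset.card_pos.2 (Finset.nonempty_iff_ne_empty.2 h0)
    omega
  have hc : ∀ i : f.support, f i ≠ 0 := fun i => Finsupp.mem_support_iff.1 i.2
  obtain ⟨cu, hcu⟩ : ∃ cu : f.support → Lˣ, ∀ i, (cu i : L) = f i :=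
    ⟨fun i => Units.mk0 (f i) (hc i), fun i => rfl⟩
  obtain ⟨G', hG'⟩ : ∃ G', G' = H ⊔ Subgroup.closure (Set.range cu) := ⟨_, rfl⟩
  have hG'fg : G'.FG := by rw [hG']; exact fg_sup hH cu
  have hGG' : H ≤ G' := by rw [hG']; exact le_sup_left
  have hcG' : ∀ i, cu i ∈ G' := fun i => by
    rw [hG']
    exact (le_sup_right : _ ≤ H ⊔ _) (Subgroup.subset_closure ⟨i, rfl⟩)
  obtain ⟨R, hR, h⟩ := ut2_fintype (hU L) G' hG'fg f.support 1 h2
  have hind : ∀ i j : f.support, i ≠ j → ∀ α β : L, α • (i : Dual L W) + β • (j : Dual L W) = 0 →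
      α = 0 ∧ β = 0 := by
    intro i j hij α β h3
    obtain ⟨i', hi'⟩ : ∃ i' : b, (i' : Dual L W) = i := ⟨⟨i, hfs i.2⟩, rfl⟩
    obtain ⟨j', hj'⟩ : ∃ j' : b, (j' : Dual L W) = j := ⟨⟨j, hfs j.2⟩, rfl⟩
    have hij' : i' ≠ j' := by
      intro h4
      apply hij
      apply Subtype.ext
      rw [← hi', ← hj', h4]
    have h5 := linearIndependent_iff'.1 hli {i', j'} (fun k => if k = i' then α else β) (by
      rw [Finset.sum_pair hij', if_pos rfl, if_neg hij'.symm, hi', hj', h3])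
    have h6 := h5 i' (by simp)
    have h7 := h5 j' (by simp)
    rw [if_pos rfl] at h6
    rw [if_neg hij'.symm] at h7
    exact ⟨h6, h7⟩
  obtain ⟨x, hxX, hx⟩ := hX (Set.range (fun i : f.support => LinearMap.ker (i : Dual L W)) ∪
    Set.image (fun s : (f.support × f.support) × L => LinearMap.ker
      (f s.1.1 • (s.1.1 : Dual L W) + (-(s.2 * f s.1.2)) • (s.1.2 : Dual L W)))
      ({s | s.1.1 ≠ s.1.2 ∧ s.2 ∈ R})) (by
      apply Set.Finite.union (Set.finite_range _)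
      apply Set.Finite.image
      refine Set.Finite.subset ((Set.finite_univ (α := f.support × f.support)).prod hR) ?_
      rintro ⟨s, ρ⟩ ⟨_, hs⟩
      exact ⟨Set.mem_univ _, hs⟩) (by
      rintro Z (⟨i, rfl⟩ | ⟨⟨⟨i, j⟩, ρ⟩, ⟨hij, _⟩, rfl⟩) htop
      · have h3 : (i : Dual L W) = 0 := LinearMap.ker_eq_top.1 htop
        exact (hli.ne_zero (⟨i, hfs i.2⟩ : b)) h3
      · have h3 := LinearMap.ker_eq_top.1 htop
        exact hc i (hind i j hij _ _ h3).1)
  have hne : ∀ i : f.support, (i : Dual L W) x ≠ 0 := by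
    intro i hi
    exact hx _ (Or.inl ⟨i, rfl⟩) hi
  have hin : ∀ i : f.support, ∃ u ∈ H, (u : L) = (i : Dual L W) x := by
    intro i
    rcases hΨ i (hbΨ (hfs i.2)) x hxX with h3 | h3
    · exact absurd h3 (hne i)
    · exact h3
  choose u hu hux using hin
  obtain ⟨i, j, hij, h3⟩ := h (fun i => cu i * u i) (fun _ => ψ x)
    (fun i => G'.mul_mem (hcG' i) (hGG' (hu i)))
    (fun _ => In0.mono hGG' (hΨ ψ hψ x hxX)) (by
      rw [Fin.sum_univ_one, ← hf, Finsupp.sum, LinearMap.sum_apply,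
        ← Finset.sum_coe_sort f.support (fun d => (f d • d) x)]
      apply Finset.sum_congr rfl
      intro i _
      rw [Units.val_mul, hcu, hux]
      rfl)
  apply hx _ (Or.inr ⟨⟨⟨i, j⟩, _⟩, ⟨hij, h3⟩, rfl⟩)
  rw [LinearMap.mem_ker]
  simp only [LinearMap.add_apply, LinearMap.smul_apply, smul_eq_mul, Units.val_mul, hcu, hux]
  have hj := hne j
  have hcj := hc j
  field_simp
  ring

end Pool.Agent.K1H89.PA
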