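import Pool.Agent.K1H77.PA.Stm

/-! # Finitely many exponential sums do not vanish at a common point -/

set_option autoImplicit false

open Module

namespace Pool.Agent.K1H89.PA

open Pool.Agent.K1H77.PA

/-- a power kills the torsion of a finitely generated commutative group -/
lemma torsion_exp {X : Type} [CommGroup X] (h : Group.FG X) :
    ∃ m : ℕ, 1 ≤ m ∧ ∀ x : X, IsOfFinOrder x → x ^ m = 1 := by
  have h1 : Module.Finite ℤ (Additive X) := by
    rw [Module.Finite.iff_addGroup_fg]
    infer_instance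
  have h2 : IsNoetherian ℤ (Additive X) := inferInstance
  have h3 : Module.Finite ℤ (Submodule.torsion ℤ (Additive X)) := inferInstance
  have h4 : Finite (Submodule.torsion ℤ (Additive X)) :=
    Module.finite_of_fg_torsion _ (Submodule.torsion_isTorsion)
  refine ⟨Nat.card (Submodule.torsion ℤ (Additive X)), Nat.card_pos, ?_⟩
  intro x hx
  obtain ⟨n, hn, hxn⟩ := isOfFinOrder_iff_pow_eq_one.1 hx
  have h5 : Additive.ofMul x ∈ Submodule.torsion ℤ (Additive X) := by
    rw [Submodule.mem_torsion_iff]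
    refine ⟨⟨(n : ℤ), mem_nonZeroDivisors_of_ne_zero (by exact_mod_cast hn.ne')⟩, ?_⟩
    show (n : ℤ) • Additive.ofMul x = 0
    rw [natCast_zsmul, ← ofMul_pow, hxn, ofMul_one]
  have h6 : Nat.card (Submodule.torsion ℤ (Additive X)) •
      (⟨Additive.ofMul x, h5⟩ : Submodule.torsion ℤ (Additive X)) = 0 := card_nsmul_eq_zero'
  have h7 := congrArg Subtype.val h6
  simp only [Submodule.coe_smul_of_tower, ZeroMemClass.coe_zero] at h7
  rw [← ofMul_pow] at h7
  exact h7

theorem t_N : S_N := by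
  classical
  intro L A _ _ C _ ι _ χ d hNT hd
  have : Fintype C := Fintype.ofFinite C
  -- the group generated by the characters
  obtain ⟨X, hX⟩ : ∃ X : Subgroup (A →* Lˣ),
    X = Subgroup.closure (Set.range fun s : Σ c, ι c => χ s.1 s.2) := ⟨_, rfl⟩
  have hmem : ∀ c i, χ c i ∈ X := fun c i => by
    rw [hX]
    exact Subgroup.subset_closure ⟨⟨c, i⟩, rfl⟩
  have hfg : Group.FG X := by
    rw [Group.fg_iff_subgroup_fg, Subgroup.fg_iff]
    exact ⟨_, hX.symm, Set.finite_range _⟩
  obtain ⟨m, hm1, hm⟩ := torsion_exp hfg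
  obtain ⟨pw, hpw⟩ : ∃ pw : X →* X, ∀ x, pw x = x ^ m := ⟨powMonoidHom m, fun _ => rfl⟩
  have hYfg : Group.FG pw.range := inferInstance
  have hYtf : IsMulTorsionFree pw.range := by
    apply IsMulTorsionFree.of_not_isOfFinOrder
    rintro ⟨y, x, rfl⟩ hy hfin
    apply hy
    obtain ⟨k, hk, hyk⟩ := isOfFinOrder_iff_pow_eq_one.1 hfin
    have h1 : (pw x) ^ k = 1 := congrArg Subtype.val hyk
    rw [hpw, ← pow_mul] at h1
    have h2 : IsOfFinOrder x := isOfFinOrder_iff_pow_eq_one.2 ⟨m * k, Nat.mul_pos hm1 hk, h1⟩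
    have h3 := hm x h2
    apply Subtype.ext
    show pw x = 1
    rw [hpw, h3]
  have hYmfg : Monoid.FG pw.range := Monoid.fg_of_group_fg
  have hdom : NoZeroDivisors (MonoidAlgebra L pw.range) := inferInstance
  obtain ⟨yy, hyy⟩ : ∃ yy : ∀ c, ι c → pw.range, ∀ c i, ((yy c i : X) : A →* Lˣ) = (χ c i) ^ m :=
    ⟨fun c i => ⟨pw ⟨χ c i, hmem c i⟩, ⟨_, rfl⟩⟩, fun c i => by
      show ((pw ⟨χ c i, hmem c i⟩ : X) : A →* Lˣ) = _
      rw [hpw]
      rfl⟩
  have hinj : ∀ c, Function.Injective (yy c) := by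
    intro c i j hij
    by_contra hne
    apply hNT c i j hne m hm1
    rw [← hyy, ← hyy, hij]
  obtain ⟨P, hP⟩ : ∃ P : C → MonoidAlgebra L pw.range,
    P = fun c => ∑ i, MonoidAlgebra.single (yy c i) (d c i) := ⟨_, rfl⟩
  have hP0 : ∀ c, P c ≠ 0 := by
    intro c h0
    obtain ⟨i, hi⟩ := hd c
    apply hi
    have h1 : (P c).coeff (yy c i) = 0 := by
      rw [h0]
      rfl
    rw [hP] at h1
    simp only [MonoidAlgebra.coeff_sum, MonoidAlgebra.coeff_single, Finsupp.coe_finsetSum,
      Finset.sum_apply, Finsupp.single_apply, (hinj c).eq_iff] at h1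
    simpa using h1
  obtain ⟨φ, hφ⟩ : ∃ φ : pw.range → (A →* L), ∀ y a, φ y a = (((y : X) : A →* Lˣ) a : L) :=
    ⟨fun y => (Units.coeHom L).comp ((y : X) : A →* Lˣ), fun _ _ => rfl⟩
  have hφinj : Function.Injective φ := by
    intro y y' h
    apply Subtype.ext
    apply Subtype.ext
    ext a
    rw [← hφ, ← hφ, h]
  have hli : LinearIndependent L (fun y a => φ y a : pw.range → A → L) :=
    (linearIndependent_monoidHom A L).comp φ hφinj
  obtain ⟨E, hE⟩ : ∃ E : A → (MonoidAlgebra L pw.range →ₐ[L] L),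
      ∀ a f, E a f = f.coeff.sum fun y b => b * φ y a := by
    refine ⟨fun a => MonoidAlgebra.lift L L pw.range ((Units.coeHom L).comp
      ((MonoidHom.eval a).comp ((Subgroup.subtype X).comp (Subgroup.subtype pw.range)))), ?_⟩
    intro a f
    rw [MonoidAlgebra.lift_apply]
    apply Finsupp.sum_congr
    intro y _
    rw [smul_eq_mul, hφ]
    rfl
  have hEP : ∀ a c, E a (P c) = ∑ i, d c i * (χ c i (a ^ m) : L) := by
    intro a c
    rw [hP, map_sum]
    apply Finset.sum_congr rfl
    intro i _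
    rw [hE, MonoidAlgebra.coeff_single, Finsupp.sum_single_index (by rw [zero_mul]), hφ, hyy]
    simp
  by_contra hcon
  push Not at hcon
  have hprod : ∏ c, P c = 0 := by
    have h1 : (∏ c, P c).coeff = 0 := by
      apply linearIndependent_iff.1 hli
      funext a
      obtain ⟨c, hc⟩ := hcon (a ^ m)
      have h2 : E a (∏ c, P c) = 0 := by
        rw [map_prod]
        exact Finset.prod_eq_zero (Finset.mem_univ c) (by rw [hEP, hc])
      rw [hE] at h2
      rw [Finsupp.linearCombination_apply, Finsupp.sum, Finset.sum_apply, Pi.zero_apply, ← h2]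
      rfl
    rwa [MonoidAlgebra.coeff_eq_zero] at h1
  have : Nontrivial (MonoidAlgebra L pw.range) := inferInstance
  obtain ⟨c, -, hc⟩ := Finset.prod_eq_zero_iff.1 hprod
  exact hP0 c hc

end Pool.Agent.K1H89.PA
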